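import Pool.Agent.V5helper11.ER.TR

set_option autoImplicit false

open Finset

namespace V5helper11.ER

open V5helper19.ER

theorem conj_DD {n : ℕ} (i k k' : Fin n) (g : G n) (hi : (g : Equiv.Perm (Fin n)) i = i)
    (hk : (g : Equiv.Perm (Fin n)) k = k') (x : G n) (hx : x ∈ DD i k) : g * x * g⁻¹ ∈ DD i k' := by
  unfold DD Der at hx ⊢
  simp only [Finset.mem_filter, Finset.mem_univ, true_and] at hx ⊢
  obtain ⟨h1, h2⟩ := hx
  have hgi : (g : Equiv.Perm (Fin n))⁻¹ i = i := by
    rw [Equiv.Perm.inv_eq_iff_eq]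
    exact hi.symm
  constructor
  · intro y
    rw [Subgroup.coe_mul, Subgroup.coe_mul, Subgroup.coe_inv, Equiv.Perm.mul_apply, Equiv.Perm.mul_apply]
    intro h
    apply h1 ((g : Equiv.Perm (Fin n))⁻¹ y)
    rw [← Equiv.Perm.eq_inv_iff_eq] at h
    exact h
  · rw [Subgroup.coe_mul, Subgroup.coe_mul, Subgroup.coe_inv, Equiv.Perm.mul_apply, Equiv.Perm.mul_apply, hgi, h2, hk]

theorem card_DD_le {n : ℕ} (hn : 5 ≤ n) (i k k' : Fin n) (hk : k ≠ i) (hk' : k' ≠ i) :
    (DD i k).card ≤ (DD i k').card := by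
  obtain ⟨g, hg, hgi, hgk⟩ := ex_even2 hn i k k' hk hk'
  set g' : G n := ⟨g, Equiv.Perm.mem_alternatingGroup.2 hg⟩ with hg'
  apply Finset.card_le_card_of_injOn (fun x => g' * x * g'⁻¹)
  · intro x hx
    exact conj_DD i k k' g' hgi hgk x hx
  · intro x _ y _ hxy
    exact mul_left_cancel (mul_right_cancel hxy)

theorem t_DC : S_DC := by
  intro n hn i k hik
  have h1 := Finset.card_eq_sum_card_fiberwise (s := Der n) (t := univ)
    (f := fun x : G n => (x : Equiv.Perm (Fin n)) i) (fun x _ => Finset.mem_coe.2 (Finset.mem_univ _))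
  rw [h1, ← Finset.add_sum_erase univ _ (Finset.mem_univ i)]
  have h0 : ((Der n).filter fun x : G n => (x : Equiv.Perm (Fin n)) i = i).card = 0 := by
    rw [Finset.card_eq_zero, Finset.filter_eq_empty_iff]
    intro x hx
    exact (Finset.mem_filter.1 hx).2 i
  rw [h0, zero_add]
  have h2 : ∀ l ∈ (univ : Finset (Fin n)).erase i, ((Der n).filter fun x : G n => (x : Equiv.Perm (Fin n)) i = l).card =
      (DD i k).card := by
    intro l hl
    have hli : l ≠ i := (Finset.mem_erase.1 hl).1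
    exact le_antisymm (card_DD_le hn i l k hli hik.symm) (card_DD_le hn i k l hik.symm hli)
  rw [Finset.sum_congr rfl h2, Finset.sum_const, Finset.card_erase_of_mem (Finset.mem_univ _), Finset.card_univ,
    Fintype.card_fin, smul_eq_mul]

end V5helper11.ER
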