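import Pool.Agent.V5helper19.ER.Stm

set_option autoImplicit false

open Finset

namespace V5helper11.ER

open V5helper19.ER

/-- a point outside a small set -/
theorem ex_out {n : ℕ} (hn : 5 ≤ n) (a b c : Fin n) : ∃ l : Fin n, l ≠ a ∧ l ≠ b ∧ l ≠ c := by
  classical
  by_contra h
  push Not at h
  have h1 : (univ : Finset (Fin n)) ⊆ {a, b, c} := by
    intro l _
    simp only [Finset.mem_insert, Finset.mem_singleton]
    by_cases h1 : l = a
    · exact Or.inl h1
    · by_cases h2 : l = b
      · exact Or.inr (Or.inl h2)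
      · exact Or.inr (Or.inr (h l h1 h2))
  have h2 := Finset.card_le_card h1
  have h3 : ({a, b, c} : Finset (Fin n)).card ≤ 3 := Finset.card_le_three
  rw [Finset.card_univ, Fintype.card_fin] at h2
  omega

theorem ex_even2 {n : ℕ} (hn : 5 ≤ n) (j j' j'' : Fin n) (h' : j' ≠ j) (h'' : j'' ≠ j) :
    ∃ g : Equiv.Perm (Fin n), Equiv.Perm.sign g = 1 ∧ g j = j ∧ g j' = j'' := by
  by_cases hjj : j' = j''
  · subst hjj
    exact ⟨1, by simp, rfl, rfl⟩
  · obtain ⟨l, h1, h2, h3⟩ := ex_out hn j j' j''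
    refine ⟨Equiv.swap j' j'' * Equiv.swap j'' l, ?_, ?_, ?_⟩
    · rw [Equiv.Perm.sign_mul, Equiv.Perm.sign_swap hjj, Equiv.Perm.sign_swap (Ne.symm h3)]
      decide
    · rw [Equiv.Perm.mul_apply, Equiv.swap_apply_of_ne_of_ne h''.symm h1.symm,
        Equiv.swap_apply_of_ne_of_ne h'.symm h''.symm]
    · rw [Equiv.Perm.mul_apply, Equiv.swap_apply_of_ne_of_ne hjj h2.symm, Equiv.swap_apply_left]

theorem ex_even1 {n : ℕ} (hn : 5 ≤ n) (j j'' : Fin n) :
    ∃ g : Equiv.Perm (Fin n), Equiv.Perm.sign g = 1 ∧ g j = j'' := by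
  by_cases hjj : j = j''
  · subst hjj
    exact ⟨1, by simp, rfl⟩
  · obtain ⟨l, h1, h2, _⟩ := ex_out hn j j'' j''
    obtain ⟨g, hg, _, hg2⟩ := ex_even2 hn l j j'' h1.symm h2.symm
    exact ⟨g, hg, hg2⟩

/-- closed under left multiplication by even permutations -/
def Clos {n : ℕ} (A : Finset (Equiv.Perm (Fin n))) : Prop :=
  ∀ g : Equiv.Perm (Fin n), Equiv.Perm.sign g = 1 → ∀ x ∈ A, g * x ∈ A

theorem card_eq {n : ℕ} (A : Finset (Equiv.Perm (Fin n))) (hA : Clos A) (P Q : Equiv.Perm (Fin n) → Prop)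
    [DecidablePred P] [DecidablePred Q] (g : Equiv.Perm (Fin n)) (hg : Equiv.Perm.sign g = 1)
    (h : ∀ x, P x ↔ Q (g * x)) : (A.filter P).card = (A.filter Q).card := by
  apply Finset.card_bij (fun x _ => g * x)
  · intro x hx
    obtain ⟨h1, h2⟩ := Finset.mem_filter.1 hx
    exact Finset.mem_filter.2 ⟨hA g hg x h1, (h x).1 h2⟩
  · intro x _ y _ hxy
    exact mul_left_cancel hxy
  · intro y hy
    obtain ⟨h1, h2⟩ := Finset.mem_filter.1 hy
    refine ⟨g⁻¹ * y, Finset.mem_filter.2 ⟨hA g⁻¹ ?_ y h1, ?_⟩, ?_⟩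
    · rw [Equiv.Perm.sign_inv, hg]
    · rw [h]
      simpa using h2
    · simp

theorem count1 {n : ℕ} (hn : 5 ≤ n) (A : Finset (Equiv.Perm (Fin n))) (hA : Clos A) (i j : Fin n) :
    n * (A.filter fun x => x i = j).card = A.card := by
  have h1 := Finset.card_eq_sum_card_fiberwise (s := A) (t := univ) (f := fun x => x i) (fun x _ => Finset.mem_coe.2 (Finset.mem_univ _))
  rw [h1]
  have h2 : ∀ k ∈ (univ : Finset (Fin n)), (A.filter fun x => x i = k).card = (A.filter fun x => x i = j).card := by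
    intro k _
    obtain ⟨g, hg, hgk⟩ := ex_even1 hn k j
    apply card_eq A hA _ _ g hg
    intro x
    rw [Equiv.Perm.mul_apply, ← hgk]
    exact g.injective.eq_iff.symm
  rw [Finset.sum_congr rfl h2, Finset.sum_const, Finset.card_univ, Fintype.card_fin, smul_eq_mul]

theorem count2 {n : ℕ} (hn : 5 ≤ n) (A : Finset (Equiv.Perm (Fin n))) (hA : Clos A) (i j i' j' : Fin n)
    (hi : i ≠ i') (hj : j ≠ j') :
    (n - 1) * (A.filter fun x => x i = j ∧ x i' = j').card = (A.filter fun x => x i = j).card := by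
  have h1 := Finset.card_eq_sum_card_fiberwise (s := A.filter fun x => x i = j) (t := univ) (f := fun x => x i')
    (fun x _ => Finset.mem_coe.2 (Finset.mem_univ _))
  rw [h1, ← Finset.add_sum_erase univ _ (Finset.mem_univ j)]
  have h0 : ((A.filter fun x => x i = j).filter fun x => x i' = j).card = 0 := by
    rw [Finset.card_eq_zero, Finset.filter_eq_empty_iff]
    intro x hx hx'
    have h2 := (Finset.mem_filter.1 hx).2
    exact hi (x.injective (h2.trans hx'.symm))
  rw [h0, zero_add]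
  have h2 : ∀ k ∈ (univ : Finset (Fin n)).erase j, ((A.filter fun x => x i = j).filter fun x => x i' = k).card =
      (A.filter fun x => x i = j ∧ x i' = j').card := by
    intro k hk
    have hkj : k ≠ j := (Finset.mem_erase.1 hk).1
    rw [Finset.filter_filter]
    obtain ⟨g, hg, hgj, hgk⟩ := ex_even2 hn j k j' hkj hj.symm
    apply card_eq A hA _ _ g hg
    intro x
    rw [Equiv.Perm.mul_apply, Equiv.Perm.mul_apply]
    constructor
    · rintro ⟨h3, h4⟩
      exact ⟨by rw [h3, hgj], by rw [h4, hgk]⟩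
    · rintro ⟨h3, h4⟩
      refine ⟨g.injective ?_, g.injective ?_⟩
      · rw [h3, hgj]
      · rw [h4, hgk]
  rw [Finset.sum_congr rfl h2, Finset.sum_const, Finset.card_erase_of_mem (Finset.mem_univ _), Finset.card_univ,
    Fintype.card_fin, smul_eq_mul]

/-- the even permutations -/
def Ev (n : ℕ) : Finset (Equiv.Perm (Fin n)) := univ.filter fun x => Equiv.Perm.sign x = 1

theorem clos_Ev (n : ℕ) : Clos (Ev n) := by
  intro g hg x hx
  have h1 := (Finset.mem_filter.1 hx).2
  exact Finset.mem_filter.2 ⟨Finset.mem_univ _, by rw [Equiv.Perm.sign_mul, hg, h1, one_mul]⟩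

theorem clos_univ (n : ℕ) : Clos (univ : Finset (Equiv.Perm (Fin n))) := fun _ _ _ _ => Finset.mem_univ _

theorem card_G_filter {n : ℕ} (P : Equiv.Perm (Fin n) → Prop) [DecidablePred P] :
    ((univ : Finset (G n)).filter fun x : G n => P (x : Equiv.Perm (Fin n))).card = ((Ev n).filter P).card := by
  rw [← Finset.card_map (Function.Embedding.subtype _)]
  congr 1
  ext x
  simp only [Finset.mem_map, Finset.mem_filter, Finset.mem_univ, true_and, Function.Embedding.coe_subtype, Ev]
  constructor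
  · rintro ⟨y, hy, rfl⟩
    exact ⟨Equiv.Perm.mem_alternatingGroup.1 y.2, hy⟩
  · rintro ⟨h1, h2⟩
    exact ⟨⟨x, Equiv.Perm.mem_alternatingGroup.2 h1⟩, h2, rfl⟩

theorem card_G (n : ℕ) : Fintype.card (G n) = (Ev n).card := by
  have h := card_G_filter (n := n) (fun _ => True)
  simpa using h

theorem t_TR : S_TR := by
  intro n hn
  have hcard : Fintype.card (Equiv.Perm (Fin n)) = n.factorial := by
    rw [Fintype.card_perm, Fintype.card_fin]
  have hnt : Nontrivial (Fin n) := Fin.nontrivial_iff_two_le.2 (by omega)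
  refine ⟨?_, ?_, ?_, ?_, ?_⟩
  · intro i j
    rw [card_G, ← count1 hn (Ev n) (clos_Ev n) i j]
    unfold T
    rw [card_G_filter (fun x => x i = j)]
  · intro i j i' j' hi hj
    rw [card_G, ← count1 hn (Ev n) (clos_Ev n) i j, ← count2 hn (Ev n) (clos_Ev n) i j i' j' hi hj, mul_assoc]
    have : T i j ∩ T i' j' = (univ : Finset (G n)).filter fun x : G n =>
        (fun y : Equiv.Perm (Fin n) => y i = j ∧ y i' = j') (x : Equiv.Perm (Fin n)) := by
      unfold T
      rw [← Finset.filter_and]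
    rw [this, card_G_filter (fun y => y i = j ∧ y i' = j')]
  · intro i j
    rw [count1 hn univ (clos_univ n) i j, Finset.card_univ, hcard]
  · intro i j i' j' hi hj
    rw [mul_assoc, count2 hn univ (clos_univ n) i j i' j' hi hj, count1 hn univ (clos_univ n) i j,
      Finset.card_univ, hcard]
  · have h := two_mul_card_alternatingGroup (α := Fin n)
    rw [hcard] at h
    convert h using 2

end V5helper11.ER
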